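import Pool.Agent.Y859.OE.Stm

/-! Project OE, CNT: counting a set with spread triples -/

set_option autoImplicit false

namespace Pool.Agent.Y232.OE

open Finset Pool.Agent.Y859.OE

theorem t_CNT : S_CNT := by
  classical
  intro W D g hD hg hW hsp
  obtain ⟨φ, hφ⟩ : ∃ φ : ℕ → ℕ, φ = fun a => ⌊((a - D : ℕ) : ℝ) / g⌋₊ := ⟨_, rfl⟩
  have hclose : ∀ x ∈ W, ∀ z ∈ W, φ x = φ z → x < z → ((z - x : ℕ) : ℝ) < g := by
    intro x hx z hz h hxz
    rw [hφ] at h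
    have h' : ⌊((x - D : ℕ) : ℝ) / g⌋₊ = ⌊((z - D : ℕ) : ℝ) / g⌋₊ := h
    have h1 : ((z - D : ℕ) : ℝ) / g < ⌊((z - D : ℕ) : ℝ) / g⌋₊ + 1 := Nat.lt_floor_add_one _
    have h2 : (⌊((x - D : ℕ) : ℝ) / g⌋₊ : ℝ) ≤ ((x - D : ℕ) : ℝ) / g :=
      Nat.floor_le (by positivity)
    rw [h'] at h2
    have h3 : ((z - D : ℕ) : ℝ) / g - ((x - D : ℕ) : ℝ) / g < 1 := by linarith
    rw [← sub_div, div_lt_one hg] at h3
    have hx1 := (hW x hx).1
    have hz1 := (hW z hz).1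
    have h4 : ((z - x : ℕ) : ℝ) = ((z - D : ℕ) : ℝ) - ((x - D : ℕ) : ℝ) := by
      rw [Nat.cast_sub hxz.le, Nat.cast_sub hz1, Nat.cast_sub hx1]
      ring
    rw [h4]
    exact h3
  have h3 : ∀ a ∈ W, ∀ b ∈ W, ∀ c ∈ W, φ a = φ c → a < b → b < c → False := by
    intro a ha b hb c hc h hab hbc
    exact absurd (hsp a ha b hb c hc hab hbc) (not_le.2 (hclose a ha c hc h (hab.trans hbc)))
  have hfib : ∀ n ∈ W.image φ, (W.filter fun x => φ x = n).card ≤ 2 := by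
    intro n _
    by_contra hcon
    rw [not_le, Finset.two_lt_card] at hcon
    obtain ⟨a, ha, b, hb, c, hc, hab, hac, hbc⟩ := hcon
    rw [mem_filter] at ha hb hc
    obtain ⟨ha, ea⟩ := ha
    obtain ⟨hb, eb⟩ := hb
    obtain ⟨hc, ec⟩ := hc
    have e1 : φ a = φ b := ea.trans eb.symm
    have e2 : φ a = φ c := ea.trans ec.symm
    have e3 : φ b = φ c := eb.trans ec.symm
    rcases lt_or_gt_of_ne hab with h1 | h1 <;> rcases lt_or_gt_of_ne hac with h2 | h2 <;>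
      rcases lt_or_gt_of_ne hbc with h4 | h4
    · exact h3 a ha b hb c hc e2 h1 h4
    · exact h3 a ha c hc b hb e1 h2 h4
    · omega
    · exact h3 c hc a ha b hb e3.symm h2 h1
    · exact h3 b hb a ha c hc e3 h1 h2
    · omega
    · exact h3 b hb c hc a ha e1.symm h4 h2
    · exact h3 c hc b hb a ha e2.symm h4 h1
  have h1 := Finset.card_le_mul_card_image (f := φ) W 2 hfib
  have h2 : (W.image φ).card ≤ ⌊(D : ℝ) / g⌋₊ + 1 := by
    have hsub : W.image φ ⊆ range (⌊(D : ℝ) / g⌋₊ + 1) := by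
      intro n hn
      obtain ⟨a, ha, rfl⟩ := mem_image.1 hn
      rw [mem_range, Nat.lt_succ_iff, hφ]
      refine Nat.floor_le_floor ?_
      refine div_le_div_of_nonneg_right ?_ hg.le
      have := (hW a ha).2
      exact_mod_cast (by omega : a - D ≤ D)
    have := card_le_card hsub
    rwa [card_range] at this
  have h5 : W.card ≤ 2 * (⌊(D : ℝ) / g⌋₊ + 1) := h1.trans (Nat.mul_le_mul_left 2 h2)
  have h6 : (⌊(D : ℝ) / g⌋₊ : ℝ) ≤ (D : ℝ) / g := Nat.floor_le (by positivity)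
  have h7 : (W.card : ℝ) ≤ 2 * ((⌊(D : ℝ) / g⌋₊ : ℝ) + 1) := by exact_mod_cast h5
  linarith

end Pool.Agent.Y232.OE
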